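import Pool.Agent.helper64.LP.Lang

/-!
# Module B2 (near edges lie on a short path) and module C3 (cores of different gadgets are far)
-/

set_option autoImplicit false

namespace Pool.Agent.helper64.LP

/-! ## Module B2: near edges lie on a short path -/

theorem near_path {V : Type} (G : SimpleGraph V) {k : ℕ} {a b c d : V}
    (hab : G.Adj a b) (hcd : G.Adj c d) (hne : s(a, b) ≠ s(c, d))
    (hnear : ∃ x ∈ s(a, b), ∃ y ∈ s(c, d), ∃ w : G.Walk x y, w.length + 2 ≤ k) :
    ∃ (u v : V) (p : G.Walk u v), p.IsPath ∧ p.length ≤ k ∧ s(a, b) ∈ p.edges ∧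
      s(c, d) ∈ p.edges := by
  classical
  -- minimal length
  let P : ℕ → Prop := fun n => ∃ x ∈ s(a, b), ∃ y ∈ s(c, d), ∃ w : G.Walk x y, w.length = n
  have hP : ∃ n, P n := by
    obtain ⟨x, hx, y, hy, w, _⟩ := hnear
    exact ⟨w.length, x, hx, y, hy, w, rfl⟩
  obtain ⟨x, hx, y, hy, w0, hw0⟩ := Nat.find_spec hP
  have hmin0 : ∀ x' ∈ s(a, b), ∀ y' ∈ s(c, d), ∀ w' : G.Walk x' y', w0.length ≤ w'.length := by
    intro x' hx' y' hy' w'
    rw [hw0]
    exact Nat.find_min' hP ⟨x', hx', y', hy', w', rfl⟩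
  obtain ⟨w, hpath, hmin⟩ : ∃ w : G.Walk x y, w.IsPath ∧
      ∀ x' ∈ s(a, b), ∀ y' ∈ s(c, d), ∀ w' : G.Walk x' y', w.length ≤ w'.length :=
    ⟨w0.bypass, w0.bypass_isPath, fun x' hx' y' hy' w' =>
      w0.length_bypass_le_length.trans (hmin0 x' hx' y' hy' w')⟩
  have hk : w.length + 2 ≤ k := by
    obtain ⟨x0, hx0, y0, hy0, w1, h0⟩ := hnear
    have := hmin x0 hx0 y0 hy0 w1
    omega
  -- the other ends
  obtain ⟨x', hx'⟩ := hx
  obtain ⟨y', hy'⟩ := hy
  have hadj1 : G.Adj x' x := by
    have : s(a, b) ∈ G.edgeSet := hab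
    rw [hx'] at this
    exact (this : G.Adj x x').symm
  have hadj2 : G.Adj y y' := by
    have : s(c, d) ∈ G.edgeSet := hcd
    rw [hy'] at this
    exact this
  have hxm : x ∈ s(a, b) := by rw [hx']; simp
  have hym : y ∈ s(c, d) := by rw [hy']; simp
  have hx'm : x' ∈ s(a, b) := by rw [hx']; simp
  have hy'm : y' ∈ s(c, d) := by rw [hy']; simp
  have h1 : x' ∉ w.support := by
    intro h
    obtain ⟨q, r, hqr⟩ := SimpleGraph.Walk.mem_support_iff_exists_append.mp h
    have h2 := hmin x' hx'm y hym r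
    rw [hqr, SimpleGraph.Walk.length_append] at h2
    have h3 : q.length = 0 := by omega
    exact hadj1.ne (SimpleGraph.Walk.eq_of_length_eq_zero h3).symm
  have h2 : y' ∉ w.support := by
    intro h
    obtain ⟨q, r, hqr⟩ := SimpleGraph.Walk.mem_support_iff_exists_append.mp h
    have h2 := hmin x hxm y' hy'm q
    rw [hqr, SimpleGraph.Walk.length_append] at h2
    have h3 : r.length = 0 := by omega
    exact hadj2.ne (SimpleGraph.Walk.eq_of_length_eq_zero h3).symm
  have h3 : x' ≠ y' := by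
    rintro rfl
    have h4 := hmin x' hx'm x' hy'm SimpleGraph.Walk.nil
    rw [SimpleGraph.Walk.length_nil] at h4
    have h5 : x = y := SimpleGraph.Walk.eq_of_length_eq_zero (Nat.le_zero.mp h4)
    apply hne
    rw [hx', hy', h5]
  refine ⟨x', y', SimpleGraph.Walk.cons hadj1 (w.concat hadj2), ?_, ?_, ?_, ?_⟩
  · refine SimpleGraph.Walk.IsPath.cons (hpath.concat h2 hadj2) ?_
    rw [SimpleGraph.Walk.support_concat]
    simp only [List.mem_append, List.mem_singleton, not_or]
    exact ⟨h1, h3⟩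
  · rw [SimpleGraph.Walk.length_cons, SimpleGraph.Walk.length_concat]
    omega
  · rw [hx', SimpleGraph.Walk.edges_cons, Sym2.eq_swap]
    exact List.mem_cons_self
  · rw [hy', SimpleGraph.Walk.edges_cons, SimpleGraph.Walk.edges_concat]
    simp

/-! ## Module C3: cores of different gadgets are far -/

/-- core vertices of the gadget `τ` in `Gk` -/
def IsCore {k : ℕ} {E T : Type} (τ : T) (v : Vtx k E T) : Prop :=
  (∃ (i : Fin 4) (j : Fin (k - 2)), j.val + 1 = k - 2 ∧ v = .sp τ i j) ∨ v = .cen τ ∨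
    ∃ i, v = .ctr τ i

namespace Far

variable {V : Type} {G : SimpleGraph V}

/-- a walk starting at `u` that contains an edge with both ends at the level `M` is long -/
lemma far_one (f : V → ℤ) (hf : ∀ u v, G.Adj u v → f v ≤ f u + 1) {M : ℤ} {c d : V}
    (hc : f c = M) (hd : f d = M) {u v : V} (p : G.Walk u v) (h : s(c, d) ∈ p.edges) :
    M + 1 ≤ f u + p.length := by
  induction p with
  | nil => simp at h
  | @cons u u' v hadj p ih =>
    rw [SimpleGraph.Walk.edges_cons, List.mem_cons] at h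
    rw [SimpleGraph.Walk.length_cons]
    push_cast
    rcases h with h | h
    · have : f u = M := by
        rcases Sym2.eq_iff.mp h with ⟨h1, _⟩ | ⟨_, h1⟩
        · rw [← h1, hc]
        · rw [← h1, hd]
      omega
    · have := ih h
      have := hf u u' hadj
      omega

lemma far_two (f : V → ℤ) (hf : ∀ u v, G.Adj u v → f v ≤ f u + 1) {M : ℤ} (hM : 0 < M)
    {a b c d : V} (ha : f a = 0) (hb : f b = 0)
    (hc : f c = M) (hd : f d = M) {u v : V} (p : G.Walk u v) (h : s(a, b) ∈ p.edges)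
    (h' : s(c, d) ∈ p.edges) : M + 2 ≤ p.length := by
  induction p with
  | nil => simp at h
  | @cons u u' v hadj p ih =>
    rw [SimpleGraph.Walk.edges_cons, List.mem_cons] at h h'
    rw [SimpleGraph.Walk.length_cons]
    push_cast
    rcases h with h | h
    · have h0 : f u = 0 ∧ f u' = 0 := by
        rcases Sym2.eq_iff.mp h with ⟨h1, h2⟩ | ⟨h2, h1⟩
        · rw [← h1, ← h2]; exact ⟨ha, hb⟩
        · rw [← h1, ← h2]; exact ⟨hb, ha⟩
      rcases h' with h' | h'
      · have : f u = M := by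
          rcases Sym2.eq_iff.mp h' with ⟨h1, _⟩ | ⟨_, h1⟩
          · rw [← h1, hc]
          · rw [← h1, hd]
        omega
      · have := far_one f hf hc hd p h'
        omega
    · rcases h' with h' | h'
      · have h0 : f u = M ∧ f u' = M := by
          rcases Sym2.eq_iff.mp h' with ⟨h1, h2⟩ | ⟨h2, h1⟩
          · rw [← h1, ← h2]; exact ⟨hc, hd⟩
          · rw [← h1, ← h2]; exact ⟨hd, hc⟩
        have := far_one (fun x => M - f x) (fun x y hxy => by
          have := hf y x hxy.symm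
          omega) (M := M) (c := a) (d := b) (by omega) (by omega) p h
        omega
      · have := ih h h'
        omega

/-- the potential -/
def pot {k : ℕ} {E T : Type} [DecidableEq T] (τ τ' : T) : Vtx k E T → ℤ
  | .hub => (k : ℤ) - 2
  | .el _ => (k : ℤ) - 2
  | .sp σ _ j => if σ = τ then (k : ℤ) - 2 - (j.val + 1) else
      if σ = τ' then (k : ℤ) - 2 + (j.val + 1) else (k : ℤ) - 2
  | .cen σ => if σ = τ then 0 else if σ = τ' then 2 * ((k : ℤ) - 2) else (k : ℤ) - 2
  | .ctr σ _ => if σ = τ then 0 else if σ = τ' then 2 * ((k : ℤ) - 2) else (k : ℤ) - 2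
  | .leg σ _ j => if σ = τ then (k : ℤ) - 2 - (j.val + 1) else
      if σ = τ' then (k : ℤ) - 2 + (j.val + 1) else (k : ℤ) - 2

lemma pot_rel {k : ℕ} (hk : 3 ≤ k) {E T : Type} [DecidableEq T] (q : T → Fin 4 → E) {τ τ' : T}
    {u v : Vtx k E T} (h : Rel k q u v) : |pot τ τ' v - pot τ τ' u| ≤ 1 := by
  cases h with
  | hub_el x => simp [pot]
  | hub_sp σ i j hj =>
    simp only [pot, hj]
    split_ifs <;> · rw [abs_le]; constructor <;> omega
  | sp_sp σ i j j' hj =>
    simp only [pot, hj]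
    split_ifs <;> · rw [abs_le]; constructor <;> omega
  | sp_cen σ i j hj =>
    simp only [pot]
    split_ifs <;> · rw [abs_le]; constructor <;> omega
  | sp_ctr σ i j hj =>
    simp only [pot]
    split_ifs <;> · rw [abs_le]; constructor <;> omega
  | sp_ctr' σ i j hj =>
    simp only [pot]
    split_ifs <;> · rw [abs_le]; constructor <;> omega
  | cen_ctr σ i =>
    simp only [pot]
    split_ifs <;> · rw [abs_le]; constructor <;> omega
  | el_leg σ i j hj =>
    simp only [pot, hj]
    split_ifs <;> · rw [abs_le]; constructor <;> omega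
  | leg_leg σ i j j' hj =>
    simp only [pot, hj]
    split_ifs <;> · rw [abs_le]; constructor <;> omega
  | leg_ctr σ i j hj =>
    simp only [pot]
    split_ifs <;> · rw [abs_le]; constructor <;> omega
  | el_ctr σ i hk' =>
    simp only [pot]
    split_ifs <;> · rw [abs_le]; constructor <;> omega

lemma pot_core {k : ℕ} (hk : 3 ≤ k) {E T : Type} [DecidableEq T] {τ τ' : T}
    {u : Vtx k E T} (h : IsCore τ u) : pot τ τ' u = 0 := by
  rcases h with ⟨i, j, hj, rfl⟩ | rfl | ⟨i, rfl⟩
  · simp only [pot, if_true]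
    omega
  · simp [pot]
  · simp [pot]

lemma pot_core' {k : ℕ} (hk : 3 ≤ k) {E T : Type} [DecidableEq T] {τ τ' : T} (hne : τ ≠ τ')
    {u : Vtx k E T} (h : IsCore τ' u) : pot τ τ' u = 2 * ((k : ℤ) - 2) := by
  rcases h with ⟨i, j, hj, rfl⟩ | rfl | ⟨i, rfl⟩
  · simp only [pot, if_true, if_neg hne.symm]
    omega
  · simp [pot, if_neg hne.symm]
  · simp [pot, if_neg hne.symm]

end Far

open Far in
theorem core_far {k : ℕ} (hk : 3 ≤ k) {E T : Type} (q : T → Fin 4 → E) {τ τ' : T} (hne : τ ≠ τ')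
    {a b c d : Vtx k E T} (ha : IsCore τ a) (hb : IsCore τ b) (hc : IsCore τ' c)
    (hd : IsCore τ' d) (u v : Vtx k E T) (p : (Gk k q).Walk u v) (hp : p.IsPath)
    (h1 : s(a, b) ∈ p.edges) (h2 : s(c, d) ∈ p.edges) : k < p.length := by
  classical
  have hf : ∀ u v, (Gk k q).Adj u v → pot τ τ' v ≤ pot τ τ' u + 1 := by
    intro u v huv
    rw [Gk, SimpleGraph.fromRel_adj] at huv
    rcases huv.2 with h | h
    · have := abs_le.mp (pot_rel hk q (τ := τ) (τ' := τ') h)
      omega
    · have := abs_le.mp (pot_rel hk q (τ := τ) (τ' := τ') h)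
      omega
  have := far_two (pot τ τ') hf (M := 2 * ((k : ℤ) - 2)) (by omega) (pot_core hk ha)
    (pot_core hk hb) (pot_core' hk hne hc) (pot_core' hk hne hd) p h1 h2
  omega

end Pool.Agent.helper64.LP
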