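import Pool.Agent.helper64.LP.Lang
import Pool.Agent.helper41.LP.Far
import Pool.Agent.helper55.LP.Straight

/-!
# Module C2c: subdivide and assemble
-/

set_option autoImplicit false

namespace Pool.Agent.helper64.LP

namespace GD

lemma finite_vtx {k : ℕ} {E T : Type} [Finite E] [Finite T] : Finite (Vtx k E T) := by
  let f : Vtx k E T → Option (E ⊕ (T × Fin 4 × Fin (k - 2)) ⊕ T ⊕ (T × Fin 4) ⊕
      (T × Fin 4 × Fin (k - 3))) := fun v => match v with
    | .hub => none
    | .el x => some (.inl x)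
    | .sp τ i j => some (.inr (.inl (τ, i, j)))
    | .cen τ => some (.inr (.inr (.inl τ)))
    | .ctr τ i => some (.inr (.inr (.inr (.inl (τ, i)))))
    | .leg τ i j => some (.inr (.inr (.inr (.inr (τ, i, j)))))
  refine Finite.of_injective f ?_
  intro v w h
  cases v <;> cases w <;> simp_all [f]

/-! ### parameters on a segment -/

/-- the point with parameter `r` -/
noncomputable def pt (A B : ℂ) (r : ℝ) : ℂ := A + (r : ℂ) * (B - A)

lemma pt_inj {A B : ℂ} (h : A ≠ B) {r s : ℝ} (hrs : pt A B r = pt A B s) : r = s := by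
  unfold pt at hrs
  have h1 : (r : ℂ) * (B - A) = s * (B - A) := add_left_cancel hrs
  have h2 := mul_right_cancel₀ (sub_ne_zero.mpr h.symm) h1
  exact_mod_cast h2

lemma pt_zero (A B : ℂ) : pt A B 0 = A := by simp [pt]

lemma pt_one (A B : ℂ) : pt A B 1 = B := by simp [pt]

lemma seg_pt {A B : ℂ} {r s : ℝ} (hrs : r ≤ s) {z : ℂ} (hz : z ∈ segment ℝ (pt A B r) (pt A B s)) :
    ∃ t, r ≤ t ∧ t ≤ s ∧ z = pt A B t := by
  rw [segment_eq_image] at hz
  obtain ⟨t, ⟨h0, h1⟩, rfl⟩ := hz
  refine ⟨(1 - t) * r + t * s, by nlinarith, by nlinarith, ?_⟩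
  simp only [pt, Complex.real_smul]
  push_cast
  ring

lemma pt_seg {A B : ℂ} {t : ℝ} (h0 : 0 ≤ t) (h1 : t ≤ 1) : pt A B t ∈ segment ℝ A B := by
  rw [segment_eq_image]
  refine ⟨t, ⟨h0, h1⟩, ?_⟩
  simp only [pt, Complex.real_smul]
  push_cast
  ring

/-! ### lines -/

variable {k : ℕ} {E T : Type}

/-- the lines: spokes to elements, private spokes, legs, core edges -/
inductive Ln (E T : Type) : Type
  | sp (x : E) : Ln E T
  | ps (τ : T) (i : Fin 4) : Ln E T
  | lg (τ : T) (i : Fin 4) : Ln E T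
  | co (τ : T) (u v : CV) (h : CAdj u v) : Ln E T

/-- the vertex of a core point -/
def cvx (hk : 3 ≤ k) (τ : T) : CV → Vtx k E T
  | .m i => .sp τ i ⟨k - 3, by omega⟩
  | .z => .cen τ
  | .y i => .ctr τ i

/-- number of edges of a line -/
def nn (k : ℕ) : Ln E T → ℕ
  | .sp _ => 1
  | .ps _ _ => k - 2
  | .lg _ _ => k - 2
  | .co _ _ _ _ => 1

/-- the vertices of a line -/
def vx (hk : 3 ≤ k) (q : T → Fin 4 → E) : Ln E T → ℕ → Vtx k E T
  | .sp x, j => if j = 0 then .hub else .el x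
  | .ps τ i, j => if j = 0 then .hub else if h : j - 1 < k - 2 then .sp τ i ⟨j - 1, h⟩ else .hub
  | .lg τ i, j => if j = 0 then .el (q τ i) else
      if h : j - 1 < k - 3 then .leg τ i ⟨j - 1, h⟩ else .ctr τ i
  | .co τ u v _, j => if j = 0 then cvx hk τ u else cvx hk τ v

variable {q : T → Fin 4 → E}

/-- start point -/
def stP (g : Geo q) : Ln E T → ℂ
  | .sp _ => g.h
  | .ps _ _ => g.h
  | .lg τ i => g.X (q τ i)
  | .co τ u _ _ => g.c τ u

/-- end point -/
def enP (g : Geo q) : Ln E T → ℂ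
  | .sp x => g.X x
  | .ps τ i => g.c τ (.m i)
  | .lg τ i => g.c τ (.y i)
  | .co τ _ v _ => g.c τ v

/-- positions -/
noncomputable def pos (g : Geo q) : Vtx k E T → ℂ
  | .hub => g.h
  | .el x => g.X x
  | .sp τ i j => pt g.h (g.c τ (.m i)) ((j.val + 1 : ℕ) / (k - 2 : ℕ))
  | .cen τ => g.c τ .z
  | .ctr τ i => g.c τ (.y i)
  | .leg τ i j => pt (g.X (q τ i)) (g.c τ (.y i)) ((j.val + 1 : ℕ) / (k - 2 : ℕ))

lemma nn_pos (hk : 3 ≤ k) (l : Ln E T) : 0 < nn k l := by
  cases l <;> simp only [nn] <;> omega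

lemma pos_cvx (hk : 3 ≤ k) (g : Geo q) (τ : T) (u : CV) : pos g (cvx hk τ u) = g.c τ u := by
  cases u with
  | m i =>
    simp only [cvx, pos]
    have h1 : k - 3 + 1 = k - 2 := by omega
    have h2 : ((k - 2 : ℕ) : ℝ) ≠ 0 := by
      have : 0 < k - 2 := by omega
      positivity
    rw [h1, div_self h2, pt_one]
  | z => rfl
  | y i => rfl

lemma pos_vx (hk : 3 ≤ k) (g : Geo q) (l : Ln E T) {j : ℕ} (hj : j ≤ nn k l) :
    pos g (vx hk q l j) = pt (stP g l) (enP g l) ((j : ℝ) / (nn k l : ℕ)) := by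
  have hk2 : ((k - 2 : ℕ) : ℝ) ≠ 0 := by
    have : 0 < k - 2 := by omega
    positivity
  cases l with
  | sp x =>
    simp only [nn, vx, stP, enP] at *
    interval_cases j <;> simp [pos, pt]
  | ps τ i =>
    simp only [nn, vx, stP, enP] at *
    rcases Nat.eq_zero_or_pos j with rfl | h
    · simp [pos, pt]
    · rw [if_neg (by omega), dif_pos (by omega)]
      simp only [pos]
      rw [Nat.sub_add_cancel h]
  | lg τ i =>
    simp only [nn, vx, stP, enP] at *
    rcases Nat.eq_zero_or_pos j with rfl | h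
    · simp [pos, pt]
    · rw [if_neg (by omega)]
      split_ifs with h1
      · simp only [pos]
        rw [Nat.sub_add_cancel h]
      · have : j = k - 2 := by omega
        rw [this, div_self hk2, pt_one]
        rfl
  | co τ u v h =>
    simp only [nn, vx, stP, enP] at *
    interval_cases j
    · simp [pt, pos_cvx]
    · simp [pt, pos_cvx]

lemma stP_ne_enP (g : Geo q) (l : Ln E T) : stP g l ≠ enP g l := by
  have hinj := g.inj
  cases l with
  | sp x =>
    intro h
    have := @hinj none (some (.inl x)) h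
    simp at this
  | ps τ i =>
    intro h
    have := @hinj none (some (.inr (τ, .m i))) h
    simp at this
  | lg τ i =>
    intro h
    have := @hinj (some (.inl (q τ i))) (some (.inr (τ, .y i))) h
    simp at this
  | co τ u v hc =>
    intro h
    have := @hinj (some (.inr (τ, u))) (some (.inr (τ, v))) h
    simp only [Option.some.injEq, Sum.inr.injEq, Prod.mk.injEq, true_and] at this
    subst this
    cases hc

/-- `v` is an end vertex of `l` -/
def Ends (hk : 3 ≤ k) (q : T → Fin 4 → E) (l : Ln E T) (v : Vtx k E T) : Prop :=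
  v = vx hk q l 0 ∨ v = vx hk q l (nn k l)

/-- core lines of different gadgets -/
def FarL : Ln E T → Ln E T → Prop
  | .co τ _ _ _, .co τ' _ _ _ => τ ≠ τ'
  | _, _ => False

/-- good intersection -/
def Good (hk : 3 ≤ k) (g : Geo q) (l l' : Ln E T) : Prop :=
  ∀ z ∈ segment ℝ (stP g l) (enP g l) ∩ segment ℝ (stP g l') (enP g l'),
    ∃ v, Ends hk q l v ∧ Ends hk q l' v ∧ z = pos g v

lemma Good.symm {hk : 3 ≤ k} {g : Geo q} {l l' : Ln E T} (h : Good hk g l l') :
    Good hk g l' l := by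
  rintro z ⟨h1, h2⟩
  obtain ⟨v, a, b, c⟩ := h z ⟨h2, h1⟩
  exact ⟨v, b, a, c⟩

lemma FarL.symm {l l' : Ln E T} (h : FarL l l') : FarL l' l := by
  cases l with
  | sp x => exact h.elim
  | ps τ i => exact h.elim
  | lg τ i => exact h.elim
  | co τ u v hc =>
    cases l' with
    | sp x => exact h.elim
    | ps τ i => exact h.elim
    | lg τ i => exact h.elim
    | co τ' u' v' hc' => exact fun h' => h h'.symm

lemma ends_co_left (hk : 3 ≤ k) (τ : T) (u v : CV) (h : CAdj u v) :
    Ends hk q (.co τ u v h) (cvx hk τ u) := Or.inl (by simp [vx])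

lemma ends_co_right (hk : 3 ≤ k) (τ : T) (u v : CV) (h : CAdj u v) :
    Ends hk q (.co τ u v h) (cvx hk τ v) := Or.inr (by simp [vx, nn])

lemma ends_sp_hub (hk : 3 ≤ k) (x : E) : Ends hk q (.sp x) (.hub : Vtx k E T) :=
  Or.inl (by simp [vx])

lemma ends_sp_el (hk : 3 ≤ k) (x : E) : Ends hk q (.sp x) (.el x : Vtx k E T) :=
  Or.inr (by simp [vx, nn])

lemma ends_ps_hub (hk : 3 ≤ k) (τ : T) (i : Fin 4) : Ends hk q (.ps τ i) (.hub : Vtx k E T) :=
  Or.inl (by simp [vx])

lemma ends_ps_m (hk : 3 ≤ k) (τ : T) (i : Fin 4) :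
    Ends hk q (.ps τ i : Ln E T) (cvx hk τ (.m i)) := by
  refine Or.inr ?_
  simp only [vx, nn, cvx]
  rw [if_neg (by omega), dif_pos (by omega)]
  congr 2

lemma ends_lg_el (hk : 3 ≤ k) (τ : T) (i : Fin 4) :
    Ends hk q (.lg τ i : Ln E T) (.el (q τ i)) := Or.inl (by simp [vx])

lemma ends_lg_y (hk : 3 ≤ k) (τ : T) (i : Fin 4) :
    Ends hk q (.lg τ i : Ln E T) (cvx hk τ (.y i)) := by
  refine Or.inr ?_
  simp only [vx, nn, cvx]
  rw [if_neg (by omega), dif_neg (by omega)]

lemma good_all (hk : 3 ≤ k) (g : Geo q) {l l' : Ln E T} (hne : l ≠ l') (hf : ¬ FarL l l') :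
    Good hk g l l' := by
  have spsp : ∀ x y : E, x ≠ y → Good hk g (.sp x) (.sp y) := by
    intro x y hxy z hz
    exact ⟨.hub, ends_sp_hub hk x, ends_sp_hub hk y, g.ss (.inl x) (.inl y) (by simpa using hxy) z hz⟩
  have spps : ∀ (x : E) τ i, Good hk g (.sp x) (.ps τ i) := by
    intro x τ i z hz
    exact ⟨.hub, ends_sp_hub hk x, ends_ps_hub hk τ i,
      g.ss (.inl x) (.inr (τ, i)) (by simp) z hz⟩
  have splg : ∀ (x : E) τ i, Good hk g (.sp x) (.lg τ i) := by
    intro x τ i z hz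
    obtain ⟨h1, h2⟩ := g.sl (.inl x) τ i z hz
    rw [Sum.inl.injEq] at h1
    exact ⟨.el (q τ i), h1 ▸ ends_sp_el hk x, ends_lg_el hk τ i, h2⟩
  have spco : ∀ (x : E) τ u v h, Good hk g (.sp x) (.co τ u v h) := by
    intro x τ u v h z hz
    obtain ⟨i, h1, _⟩ := g.sc (.inl x) τ u v h z hz
    simp at h1
  have psps : ∀ τ i τ' i', (τ, i) ≠ (τ', i') → Good hk g (.ps τ i) (.ps τ' i') := by
    intro τ i τ' i' hne z hz
    exact ⟨.hub, ends_ps_hub hk τ i, ends_ps_hub hk τ' i',
      g.ss (.inr (τ, i)) (.inr (τ', i')) (by simpa using hne) z hz⟩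
  have pslg : ∀ τ i τ' i', Good hk g (.ps τ i) (.lg τ' i') := by
    intro τ i τ' i' z hz
    have := (g.sl (.inr (τ, i)) τ' i' z hz).1
    simp at this
  have psco : ∀ τ i τ' u v h, Good hk g (.ps τ i) (.co τ' u v h) := by
    intro τ i τ' u v h z hz
    obtain ⟨i', h1, h2, h3⟩ := g.sc (.inr (τ, i)) τ' u v h z hz
    simp only [Sum.inr.injEq, Prod.mk.injEq] at h1
    obtain ⟨rfl, rfl⟩ := h1
    refine ⟨cvx hk τ (.m i), ends_ps_m hk τ i, ?_, by rw [pos_cvx]; exact h3⟩
    rcases h2 with h2 | h2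
    · rw [← h2]; exact ends_co_left hk τ u v h
    · rw [← h2]; exact ends_co_right hk τ u v h
  have lglg : ∀ τ i τ' i', (τ, i) ≠ (τ', i') → Good hk g (.lg τ i) (.lg τ' i') := by
    intro τ i τ' i' hne z hz
    obtain ⟨h1, h2⟩ := g.ll τ i τ' i' hne z hz
    exact ⟨.el (q τ i), ends_lg_el hk τ i, h1 ▸ ends_lg_el hk τ' i', h2⟩
  have lgco : ∀ τ i τ' u v h, Good hk g (.lg τ i) (.co τ' u v h) := by
    intro τ i τ' u v h z hz
    obtain ⟨h1, h2, h3⟩ := g.lc τ i τ' u v h z hz
    subst h1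
    refine ⟨cvx hk τ (.y i), ends_lg_y hk τ i, ?_, by rw [pos_cvx]; exact h3⟩
    rcases h2 with h2 | h2
    · rw [← h2]; exact ends_co_left hk τ u v h
    · rw [← h2]; exact ends_co_right hk τ u v h
  cases l with
  | sp x =>
    cases l' with
    | sp y => exact spsp x y (fun h => hne (by rw [h]))
    | ps τ i => exact spps x τ i
    | lg τ i => exact splg x τ i
    | co τ u v h => exact spco x τ u v h
  | ps τ i =>
    cases l' with
    | sp y => exact (spps y τ i).symm
    | ps τ' i' =>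
      refine psps τ i τ' i' (fun h => hne ?_)
      simp only [Prod.mk.injEq] at h
      rw [h.1, h.2]
    | lg τ' i' => exact pslg τ i τ' i'
    | co τ' u v h => exact psco τ i τ' u v h
  | lg τ i =>
    cases l' with
    | sp y => exact (splg y τ i).symm
    | ps τ' i' => exact (pslg τ' i' τ i).symm
    | lg τ' i' =>
      refine lglg τ i τ' i' (fun h => hne ?_)
      simp only [Prod.mk.injEq] at h
      rw [h.1, h.2]
    | co τ' u v h => exact lgco τ i τ' u v h
  | co τ u v h =>
    cases l' with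
    | sp y => exact (spco y τ u v h).symm
    | ps τ' i' => exact (psco τ' i' τ u v h).symm
    | lg τ' i' => exact (lgco τ' i' τ u v h).symm
    | co τ' u' v' h' =>
      simp only [FarL, not_not] at hf
      subst hf
      intro z hz
      obtain ⟨w, hw1, hw2, hw3⟩ := g.cc τ u v u' v' h h' (fun h'' => hne (by
        simp only [Prod.mk.injEq] at h''
        obtain ⟨rfl, rfl⟩ := h''
        rfl)) z hz
      refine ⟨cvx hk τ w, ?_, ?_, by rw [pos_cvx]; exact hw3⟩
      · rcases hw1 with rfl | rfl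
        · exact ends_co_left hk _ _ _ h
        · exact ends_co_right hk _ _ _ h
      · rcases hw2 with rfl | rfl
        · exact ends_co_left hk _ _ _ h'
        · exact ends_co_right hk _ _ _ h'

/-- ends are vertices of the line -/
lemma ends_vx {hk : 3 ≤ k} {l : Ln E T} {v : Vtx k E T} (h : Ends hk q l v) :
    ∃ j, (j = 0 ∨ j = nn k l) ∧ v = vx hk q l j := by
  rcases h with h | h
  · exact ⟨0, Or.inl rfl, h⟩
  · exact ⟨_, Or.inr rfl, h⟩

/-- parameters of a vertex of the line in a small segment -/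
lemma vx_mem {hk : 3 ≤ k} {g : Geo q} {l : Ln E T} {i j : ℕ} (hi : i ≤ nn k l) (hj : j < nn k l)
    (h : pos g (vx hk q l i) ∈ segment ℝ (pos g (vx hk q l j)) (pos g (vx hk q l (j + 1)))) :
    i = j ∨ i = j + 1 := by
  rw [pos_vx hk g l hi, pos_vx hk g l hj.le, pos_vx hk g l (Nat.succ_le_of_lt hj)] at h
  have hn : (0 : ℝ) < (nn k l : ℕ) := by exact_mod_cast nn_pos hk l
  obtain ⟨t, h1, h2, h3⟩ := seg_pt (by gcongr; simp) h
  have := pt_inj (stP_ne_enP g l) h3
  rw [← this] at h1 h2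
  rw [div_le_div_iff_of_pos_right hn] at h1 h2
  have h1' : j ≤ i := by exact_mod_cast h1
  have h2' : i ≤ j + 1 := by exact_mod_cast h2
  omega

lemma vx_inj {hk : 3 ≤ k} {g : Geo q} {l : Ln E T} {i j : ℕ} (hi : i ≤ nn k l) (hj : j ≤ nn k l)
    (h : pos g (vx hk q l i) = pos g (vx hk q l j)) : i = j := by
  rw [pos_vx hk g l hi, pos_vx hk g l hj] at h
  have hn : (0 : ℝ) < (nn k l : ℕ) := by exact_mod_cast nn_pos hk l
  have := pt_inj (stP_ne_enP g l) h
  rw [div_left_inj' hn.ne'] at this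
  exact_mod_cast this

/-- small segments are contained in the line -/
lemma small_sub {hk : 3 ≤ k} {g : Geo q} {l : Ln E T} {j : ℕ} (hj : j < nn k l) {z : ℂ}
    (h : z ∈ segment ℝ (pos g (vx hk q l j)) (pos g (vx hk q l (j + 1)))) :
    z ∈ segment ℝ (stP g l) (enP g l) := by
  rw [pos_vx hk g l hj.le, pos_vx hk g l (Nat.succ_le_of_lt hj)] at h
  have hn : (0 : ℝ) < (nn k l : ℕ) := by exact_mod_cast nn_pos hk l
  obtain ⟨t, h1, h2, rfl⟩ := seg_pt (by gcongr; simp) h
  apply pt_seg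
  · exact le_trans (by positivity) h1
  · refine h2.trans ?_
    rw [div_le_one hn]
    exact_mod_cast Nat.succ_le_of_lt hj

lemma vx_line {hk : 3 ≤ k} {g : Geo q} {l : Ln E T} {j : ℕ} (hj : j ≤ nn k l) :
    pos g (vx hk q l j) ∈ segment ℝ (stP g l) (enP g l) := by
  rw [pos_vx hk g l hj]
  have hn : (0 : ℝ) < (nn k l : ℕ) := by exact_mod_cast nn_pos hk l
  apply pt_seg
  · positivity
  · rw [div_le_one hn]
    exact_mod_cast hj

/-- two small segments of the same line -/
lemma same_line {hk : 3 ≤ k} {g : Geo q} {l : Ln E T} {i j : ℕ} (hj : j < nn k l)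
    (hij : i < j) {z : ℂ}
    (h : z ∈ segment ℝ (pos g (vx hk q l i)) (pos g (vx hk q l (i + 1))))
    (h' : z ∈ segment ℝ (pos g (vx hk q l j)) (pos g (vx hk q l (j + 1)))) :
    j = i + 1 ∧ z = pos g (vx hk q l j) := by
  rw [pos_vx hk g l (by omega), pos_vx hk g l (by omega)] at h
  rw [pos_vx hk g l hj.le, pos_vx hk g l (Nat.succ_le_of_lt hj)] at h'
  have hn : (0 : ℝ) < (nn k l : ℕ) := by exact_mod_cast nn_pos hk l
  obtain ⟨t, h1, h2, rfl⟩ := seg_pt (by gcongr; simp) h
  obtain ⟨t', h3, h4, h5⟩ := seg_pt (by gcongr; simp) h'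
  have := pt_inj (stP_ne_enP g l) h5
  subst this
  have h6 := h3.trans h2
  rw [div_le_div_iff_of_pos_right hn] at h6
  have h7 : j ≤ i + 1 := by exact_mod_cast h6
  have h8 : j = i + 1 := by omega
  refine ⟨h8, ?_⟩
  rw [pos_vx hk g l hj.le]
  congr 1
  subst h8
  exact le_antisymm h2 h3

/-- every edge is a piece of a line -/
lemma edge_line (hk : 3 ≤ k) {a b : Vtx k E T} (h : (Gk k q).Adj a b) :
    ∃ (l : Ln E T) (j : ℕ), j < nn k l ∧ s(a, b) = s(vx hk q l j, vx hk q l (j + 1)) := by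
  have key : ∀ {a b : Vtx k E T}, Rel k q a b →
      ∃ (l : Ln E T) (j : ℕ), j < nn k l ∧ s(a, b) = s(vx hk q l j, vx hk q l (j + 1)) := by
    intro a b h
    cases h with
    | hub_el x => exact ⟨.sp x, 0, by simp [nn], by simp [vx]⟩
    | hub_sp τ i j hj =>
      refine ⟨.ps τ i, 0, by simp only [nn]; omega, ?_⟩
      obtain ⟨j, hj'⟩ := j
      simp only at hj
      subst hj
      simp [vx, hj']
    | sp_sp τ i j j' hj =>
      obtain ⟨j, h1⟩ := j
      obtain ⟨j', h2⟩ := j'
      simp only at hj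
      subst hj
      refine ⟨.ps τ i, j + 1, by simp only [nn]; omega, ?_⟩
      simp [vx, h1, h2]
    | sp_cen τ i j hj =>
      obtain ⟨j, h1⟩ := j
      simp only at hj
      obtain rfl : j = k - 3 := by omega
      exact ⟨.co τ (.m i) .z (.mz i), 0, by simp [nn], by simp [vx, cvx]⟩
    | sp_ctr τ i j hj =>
      obtain ⟨j, h1⟩ := j
      simp only at hj
      obtain rfl : j = k - 3 := by omega
      exact ⟨.co τ (.m i) (.y i) (.my i), 0, by simp [nn], by simp [vx, cvx]⟩
    | sp_ctr' τ i j hj =>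
      obtain ⟨j, h1⟩ := j
      simp only at hj
      obtain rfl : j = k - 3 := by omega
      exact ⟨.co τ (.m i) (.y (i + 1)) (.my' i), 0, by simp [nn], by simp [vx, cvx]⟩
    | cen_ctr τ i => exact ⟨.co τ .z (.y i) (.zy i), 0, by simp [nn], by simp [vx, cvx]⟩
    | el_leg τ i j hj =>
      obtain ⟨j, h1⟩ := j
      simp only at hj
      subst hj
      refine ⟨.lg τ i, 0, by simp only [nn]; omega, ?_⟩
      simp [vx, h1]
    | leg_leg τ i j j' hj =>
      obtain ⟨j, h1⟩ := j
      obtain ⟨j', h2⟩ := j'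
      simp only at hj
      subst hj
      refine ⟨.lg τ i, j + 1, by simp only [nn]; omega, ?_⟩
      simp [vx, h1, h2]
    | leg_ctr τ i j hj =>
      obtain ⟨j, h1⟩ := j
      simp only at hj
      refine ⟨.lg τ i, j + 1, by simp only [nn]; omega, ?_⟩
      have : ¬ (j + 1 < k - 3) := by omega
      simp [vx, h1, this]
    | el_ctr τ i hk' =>
      refine ⟨.lg τ i, 0, by simp only [nn]; omega, ?_⟩
      have : ¬ (0 < k - 3) := by omega
      simp only [vx]
      simp [this]
  rw [Gk, SimpleGraph.fromRel_adj] at h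
  rcases h.2 with h | h
  · exact key h
  · rw [Sym2.eq_swap]; exact key h

/-- every vertex lies on a line -/
lemma vertex_line (hk : 3 ≤ k) [Nonempty E] (q : T → Fin 4 → E) (v : Vtx k E T) :
    ∃ (l : Ln E T) (j : ℕ), j ≤ nn k l ∧ v = vx hk q l j := by
  cases v with
  | hub => exact ⟨.sp (Classical.arbitrary E), 0, by simp [nn], by simp [vx]⟩
  | el x => exact ⟨.sp x, 1, by simp [nn], by simp [vx]⟩
  | sp τ i j =>
    obtain ⟨j, h1⟩ := j
    exact ⟨.ps τ i, j + 1, by simp only [nn]; omega, by simp [vx, h1]⟩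
  | cen τ => exact ⟨.co τ (.m 0) .z (.mz 0), 1, by simp [nn], by simp [vx, cvx]⟩
  | ctr τ i => exact ⟨.co τ (.m i) (.y i) (.my i), 1, by simp [nn], by simp [vx, cvx]⟩
  | leg τ i j =>
    obtain ⟨j, h1⟩ := j
    exact ⟨.lg τ i, j + 1, by simp only [nn]; omega, by simp [vx, h1]⟩

/-- a vertex of a line `l'` on another line `l` -/
lemma vx_on (hk : 3 ≤ k) (g : Geo q) {l l' : Ln E T} (hne : l ≠ l') {j : ℕ} (hj : j ≤ nn k l')
    (h : pos g (vx hk q l' j) ∈ segment ℝ (stP g l) (enP g l)) :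
    Ends hk q l (vx hk q l' j) := by
  by_cases hf : FarL l l'
  · exfalso
    cases l with
    | sp x => exact hf
    | ps τ i => exact hf
    | lg τ i => exact hf
    | co τ u v hc =>
      cases l' with
      | sp x => exact hf
      | ps τ i => exact hf
      | lg τ i => exact hf
      | co τ' u' v' hc' =>
        simp only [FarL] at hf
        simp only [nn] at hj
        interval_cases j
        · simp only [vx, if_true, pos_cvx] at h
          exact g.ca τ τ' u v u' hf hc h
        · simp only [vx, one_ne_zero, if_false, pos_cvx] at h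
          exact g.ca τ τ' u v v' hf hc h
  · obtain ⟨v, h1, h2, h3⟩ := good_all hk g hne hf _ ⟨h, vx_line hj⟩
    obtain ⟨i, hi, rfl⟩ := ends_vx h2
    have : j = i := vx_inj hj (by omega) h3
    subst this
    exact h1

lemma pos_inj (hk : 3 ≤ k) [Nonempty E] (g : Geo q) :
    Function.Injective (pos g : Vtx k E T → ℂ) := by
  intro v v' h
  obtain ⟨l, j, hj, rfl⟩ := vertex_line hk q v
  obtain ⟨l', j', hj', rfl⟩ := vertex_line hk q v'
  by_cases hl : l = l'
  · subst hl
    rw [vx_inj hj hj' h]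
  · have h1 : Ends hk q l (vx hk q l' j') := vx_on hk g hl hj' (by rw [← h]; exact vx_line hj)
    obtain ⟨i, hi, h2⟩ := ends_vx h1
    rw [h2] at h ⊢
    rw [vx_inj hj (by omega) h]

lemma avoid (hk : 3 ≤ k) [Nonempty E] (g : Geo q) {l : Ln E T} {j : ℕ} (hj : j < nn k l)
    {w : Vtx k E T}
    (h : pos g w ∈ segment ℝ (pos g (vx hk q l j)) (pos g (vx hk q l (j + 1)))) :
    w = vx hk q l j ∨ w = vx hk q l (j + 1) := by
  obtain ⟨l', j', hj', rfl⟩ := vertex_line hk q w
  have key : ∀ i ≤ nn k l, pos g (vx hk q l i) ∈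
      segment ℝ (pos g (vx hk q l j)) (pos g (vx hk q l (j + 1))) →
      vx hk q l i = vx hk q l j ∨ vx hk q l i = vx hk q l (j + 1) := by
    intro i hi h
    rcases vx_mem hi hj h with rfl | rfl
    · exact Or.inl rfl
    · exact Or.inr rfl
  by_cases hl : l = l'
  · subst hl
    exact key j' hj' h
  · have h1 : Ends hk q l (vx hk q l' j') := vx_on hk g hl hj' (small_sub hj h)
    obtain ⟨i, hi, h2⟩ := ends_vx h1
    rw [h2] at h ⊢
    exact key i (by omega) h

lemma isCore_cvx (hk : 3 ≤ k) (τ : T) (u : CV) : IsCore τ (cvx hk τ u : Vtx k E T) := by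
  cases u with
  | m i => exact Or.inl ⟨i, ⟨k - 3, by omega⟩, by simp only; omega, rfl⟩
  | z => exact Or.inr (Or.inl rfl)
  | y i => exact Or.inr (Or.inr ⟨i, rfl⟩)

lemma seg_sym2 {V : Type} (f : V → ℂ) {a b c d : V} (h : s(a, b) = s(c, d)) :
    segment ℝ (f a) (f b) = segment ℝ (f c) (f d) := by
  rcases Sym2.eq_iff.mp h with ⟨rfl, rfl⟩ | ⟨rfl, rfl⟩
  · rfl
  · exact segment_symm ℝ _ _

lemma near (hk : 3 ≤ k) [Nonempty E] (g : Geo q) {a b c d : Vtx k E T} (hab : (Gk k q).Adj a b)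
    (hcd : (Gk k q).Adj c d) (hne : s(a, b) ≠ s(c, d))
    (hp : ∃ (u v : Vtx k E T) (p : (Gk k q).Walk u v), p.IsPath ∧ p.length ≤ k ∧
      s(a, b) ∈ p.edges ∧ s(c, d) ∈ p.edges) {z : ℂ}
    (hz : z ∈ segment ℝ (pos g a) (pos g b) ∩ segment ℝ (pos g c) (pos g d)) :
    ∃ v, v ∈ s(a, b) ∧ v ∈ s(c, d) ∧ z = pos g v := by
  obtain ⟨l, j, hj, h1⟩ := edge_line hk hab
  obtain ⟨l', j', hj', h2⟩ := edge_line hk hcd
  rw [seg_sym2 (pos g) h1, seg_sym2 (pos g) h2] at hz
  rw [h1, h2] at hp hne ⊢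
  obtain ⟨hz1, hz2⟩ := hz
  by_cases hl : l = l'
  · subst hl
    rcases lt_trichotomy j j' with h | h | h
    · obtain ⟨h3, h4⟩ := same_line hj' h hz1 hz2
      exact ⟨vx hk q l j', by rw [h3]; simp, by simp, h4⟩
    · exact (hne (by rw [h])).elim
    · obtain ⟨h3, h4⟩ := same_line hj h hz2 hz1
      exact ⟨vx hk q l j, by simp, by rw [h3]; simp, h4⟩
  · by_cases hf : FarL l l'
    · exfalso
      obtain ⟨u, v, p, hpp, hpl, he1, he2⟩ := hp
      cases l with
      | sp x => exact hf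
      | ps τ i => exact hf
      | lg τ i => exact hf
      | co τ u1 v1 hc =>
        cases l' with
        | sp x => exact hf
        | ps τ i => exact hf
        | lg τ i => exact hf
        | co τ' u2 v2 hc' =>
          simp only [FarL] at hf
          simp only [nn, Nat.lt_one_iff] at hj hj'
          subst hj hj'
          simp only [vx, if_true, zero_add, one_ne_zero, if_false] at he1 he2
          have := core_far hk q hf (isCore_cvx hk τ u1) (isCore_cvx hk τ v1)
            (isCore_cvx hk τ' u2) (isCore_cvx hk τ' v2) u v p hpp he1 he2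
          omega
    · obtain ⟨v, hv1, hv2, hv3⟩ := good_all hk g hl hf z ⟨small_sub hj hz1, small_sub hj' hz2⟩
      refine ⟨v, ?_, ?_, hv3⟩
      · obtain ⟨i, hi, rfl⟩ := ends_vx hv1
        rw [hv3] at hz1
        rcases vx_mem (by omega) hj hz1 with rfl | rfl
        · simp
        · simp
      · obtain ⟨i, hi, rfl⟩ := ends_vx hv2
        rw [hv3] at hz2
        rcases vx_mem (by omega) hj' hz2 with rfl | rfl
        · simp
        · simp

end GD

open GD in
theorem geo_drawing {k : ℕ} (hk : 3 ≤ k) {E T : Type} [Finite E] [Finite T] (q : T → Fin 4 → E)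
    (g : Geo q) : LocallyPlanar k (Gk k q) := by
  rcases isEmpty_or_nonempty E with hE | hE
  · have hT : IsEmpty T := ⟨fun τ => hE.elim (q τ 0)⟩
    have hsub : ∀ v w : Vtx k E T, v = w := by
      have : ∀ v : Vtx k E T, v = .hub := by
        intro v
        cases v with
        | hub => rfl
        | el x => exact hE.elim x
        | sp τ i j => exact hT.elim τ
        | cen τ => exact hT.elim τ
        | ctr τ i => exact hT.elim τ
        | leg τ i j => exact hT.elim τ
      intro v w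
      rw [this v, this w]
    have : Subsingleton (Vtx k E T) := ⟨hsub⟩
    exact straight (fun _ => 0) (fun v w _ => hsub v w)
      (fun u v w h _ => (h.ne (hsub u v)).elim)
      (fun a b c d h _ _ _ => (h.ne (hsub a b)).elim)
  · have : Finite (Vtx k E T) := finite_vtx
    refine straight (GD.pos g) (pos_inj hk g) ?_ ?_
    · intro u v w huv hw
      obtain ⟨l, j, hj, h1⟩ := edge_line hk huv
      rw [seg_sym2 (pos g) h1] at hw
      have h2 : w ∈ s(u, v) := by
        rw [h1]
        rcases avoid hk g hj hw with h | h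
        · rw [h]; simp
        · rw [h]; simp
      exact Sym2.mem_iff.mp h2
    · intro a b c d hab hcd hne hp z hz
      exact near hk g hab hcd hne hp hz

end Pool.Agent.helper64.LP
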